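import Pool.Agent.Lib_MP_b1f496_an.Flows

/-!
# Automorphism groups of subshifts over `ℤ²` and periodic configurations

For a subshift `X` over `ℤ²`, the automorphism group of `X × {0,1}^(ℤ²)` is residually finite if
and only if the periodic configurations are dense in `X`.
-/

namespace Pool.Agent.Lib_MP_b1f496_an

open Set Filter Topology Equiv

/-- The automorphism group of `X`: the homeomorphisms of `X` that commute with all shifts. -/
def Aut {A : Type} [TopologicalSpace A] (X : Set (ℤ × ℤ → A)) : Subgroup (Equiv.Perm X) where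
  carrier := {f | Continuous f ∧ Continuous f.symm ∧ ∀ (g : ℤ × ℤ) (x y : X),
    (y : ℤ × ℤ → A) = shift g x ↔ (f y : ℤ × ℤ → A) = shift g (f x)}
  mul_mem' := by
    rintro f f' ⟨h1, h2, h3⟩ ⟨h1', h2', h3'⟩
    refine ⟨h1.comp h1', h2'.comp h2, fun g x y => ?_⟩
    rw [h3' g x y, h3 g (f' x) (f' y)]
    rfl
  one_mem' := ⟨continuous_id, continuous_id, fun _ _ _ => Iff.rfl⟩
  inv_mem' := by
    rintro f ⟨h1, h2, h3⟩
    refine ⟨h2, h1, fun g x y => ?_⟩
    have h4 := h3 g (f⁻¹ x) (f⁻¹ y)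
    have e1 : f (f⁻¹ x) = x := f.apply_symm_apply x
    have e2 : f (f⁻¹ y) = y := f.apply_symm_apply y
    rw [e1, e2] at h4
    exact h4.symm

/-- `X × {0,1}^(ℤ²)`. -/
def full {A : Type} (X : Set (ℤ × ℤ → A)) : Set (ℤ × ℤ → A × Bool) :=
  {z | (fun u => (z u).1) ∈ X}

/-- The periodic configurations of `X` are dense in `X`. -/
def PeriodicDense {A : Type} [TopologicalSpace A] (X : Set (ℤ × ℤ → A)) : Prop :=
  X ⊆ closure {x | x ∈ X ∧ IsPeriodic x}

variable {A : Type}

lemma shift_shift (a b : ℤ × ℤ) (x : ℤ × ℤ → A) : shift a (shift b x) = shift (a + b) x := by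
  funext u
  simp only [shift]
  congr 1
  abel

lemma shift_zero (x : ℤ × ℤ → A) : shift 0 x = x := by
  funext u
  simp [shift]

/-- The `0-1` layer does not matter for the types: `C` is separated along `H`. -/
def Sep (X C : Set (ℤ × ℤ → A)) (H : Finset (ℤ × ℤ)) : Prop :=
  ∀ x ∈ X, x ∈ C → ∀ a ∈ H, ∀ b ∈ H, shift (a - b) x ∈ C → a = b

lemma Sep.mono {X C D : Set (ℤ × ℤ → A)} {H : Finset (ℤ × ℤ)} (h : Sep X D H) (hCD : C ⊆ D) :
    Sep X C H := fun x hx hxC a ha b hb hs => h x hx (hCD hxC) a ha b hb (hCD hs)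

lemma Sep.mono' {X C : Set (ℤ × ℤ → A)} {H K : Finset (ℤ × ℤ)} (h : Sep X C H) (hK : K ⊆ H) :
    Sep X C K := fun x hx hxC a ha b hb hs => h x hx hxC a (hK ha) b (hK hb) hs

/-- the permutation of the sites -/
noncomputable def move (C : Set (ℤ × ℤ → A)) (τ : Perm (ℤ × ℤ)) (x : ℤ × ℤ → A) (s : ℤ × ℤ) :
    ℤ × ℤ := by
  classical
  exact if h : ∃ a, τ a ≠ a ∧ shift (s - a) x ∈ C then s - h.choose + τ h.choose else s

section move

variable {X C : Set (ℤ × ℤ → A)} {H : Finset (ℤ × ℤ)} {τ τ' : Perm (ℤ × ℤ)} {x : ℤ × ℤ → A}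
  {s a : ℤ × ℤ}

/-- the displacements outside `H` are fixed -/
def Supp (H : Finset (ℤ × ℤ)) : Subgroup (Perm (ℤ × ℤ)) where
  carrier := {τ | ∀ a, a ∉ H → τ a = a}
  mul_mem' := by
    intro τ τ' h h' a ha
    simp only [Perm.mul_apply, h' a ha, h a ha]
  one_mem' := fun _ _ => rfl
  inv_mem' := by
    intro τ h a ha
    rw [Perm.inv_eq_iff_eq]
    exact (h a ha).symm

lemma apply_mem (hτ : τ ∈ Supp H) (ha : a ∈ H) : τ a ∈ H := by
  by_contra h
  have h1 : τ (τ a) = τ a := hτ _ h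
  exact h (by rwa [τ.injective h1])

lemma mem_of_ne (hτ : τ ∈ Supp H) (ha : τ a ≠ a) : a ∈ H := by
  by_contra h
  exact ha (hτ a h)

lemma move_of_type (hX : ∀ g, ∀ x ∈ X, shift g x ∈ X) (hC : Sep X C H) (hτ : τ ∈ Supp H)
    (hx : x ∈ X) (ha : a ∈ H) (hs : shift (s - a) x ∈ C) : move C τ x s = s - a + τ a := by
  unfold move
  split_ifs with h
  · have h1 : a = h.choose := by
      refine hC _ (hX _ x hx) hs a ha _ (mem_of_ne hτ h.choose_spec.1) ?_
      rw [shift_shift]
      have : a - h.choose + (s - a) = s - h.choose := by abel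
      rw [this]
      exact h.choose_spec.2
    rw [← h1]
  · have h1 : τ a = a := by
      by_contra h2
      exact h ⟨a, h2, hs⟩
    rw [h1]
    abel

lemma move_of_not (hτ : τ ∈ Supp H) (hs : ∀ a ∈ H, shift (s - a) x ∉ C) : move C τ x s = s := by
  unfold move
  split_ifs with h
  · exact absurd h.choose_spec.2 (hs _ (mem_of_ne hτ h.choose_spec.1))
  · rfl

lemma move_mul (hX : ∀ g, ∀ x ∈ X, shift g x ∈ X) (hC : Sep X C H) (hτ : τ ∈ Supp H)
    (hτ' : τ' ∈ Supp H) (hx : x ∈ X) (s : ℤ × ℤ) :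
    move C τ x (move C τ' x s) = move C (τ * τ') x s := by
  by_cases h : ∃ a ∈ H, shift (s - a) x ∈ C
  · obtain ⟨a, ha, hs⟩ := h
    rw [move_of_type hX hC hτ' hx ha hs, move_of_type hX hC (mul_mem hτ hτ') hx ha hs]
    have h1 : shift (s - a + τ' a - τ' a) x ∈ C := by
      rwa [add_sub_cancel_right]
    rw [move_of_type hX hC hτ hx (apply_mem hτ' ha) h1, add_sub_cancel_right, Perm.mul_apply]
  · push Not at h
    rw [move_of_not hτ' h, move_of_not hτ h, move_of_not (mul_mem hτ hτ') h]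

lemma move_one (s : ℤ × ℤ) : move C 1 x s = s := by
  unfold move
  split_ifs with h
  · exact absurd rfl h.choose_spec.1
  · rfl

lemma move_shift (hX : ∀ g, ∀ x ∈ X, shift g x ∈ X) (hC : Sep X C H) (hτ : τ ∈ Supp H)
    (hx : x ∈ X) (g s : ℤ × ℤ) : move C τ (shift g x) s + g = move C τ x (s + g) := by
  have key : ∀ a, shift (s - a) (shift g x) = shift (s + g - a) x := by
    intro a
    rw [shift_shift]
    congr 1
    abel
  by_cases h : ∃ a ∈ H, shift (s + g - a) x ∈ C
  · obtain ⟨a, ha, hs⟩ := h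
    rw [move_of_type hX hC hτ hx ha hs,
      move_of_type hX hC hτ (hX g x hx) ha (by rw [key a]; exact hs)]
    abel
  · push Not at h
    rw [move_of_not hτ h, move_of_not hτ (fun a ha => by rw [key a]; exact h a ha)]

end move

/-- the action on the configurations of `X × {0,1}^(ℤ²)` -/
noncomputable def act (C : Set (ℤ × ℤ → A)) (τ : Perm (ℤ × ℤ)) (z : ℤ × ℤ → A × Bool) :
    ℤ × ℤ → A × Bool :=
  fun u => ((z u).1, (z (move C τ⁻¹ (fun w => (z w).1) u)).2)

section act

variable {X C : Set (ℤ × ℤ → A)} {H : Finset (ℤ × ℤ)} {τ τ' : Perm (ℤ × ℤ)}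

lemma act_mem {z : ℤ × ℤ → A × Bool} (hz : z ∈ full X) : act C τ z ∈ full X := hz

lemma act_mul (hX : ∀ g, ∀ x ∈ X, shift g x ∈ X) (hC : Sep X C H) (hτ : τ ∈ Supp H)
    (hτ' : τ' ∈ Supp H) {z : ℤ × ℤ → A × Bool} (hz : z ∈ full X) :
    act C τ (act C τ' z) = act C (τ * τ') z := by
  funext u
  simp only [act, mul_inv_rev]
  rw [move_mul hX hC (inv_mem hτ') (inv_mem hτ) hz]

lemma act_one (z : ℤ × ℤ → A × Bool) : act C 1 z = z := by
  funext u
  simp only [act, inv_one, move_one]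

lemma act_shift (hX : ∀ g, ∀ x ∈ X, shift g x ∈ X) (hC : Sep X C H) (hτ : τ ∈ Supp H)
    {z : ℤ × ℤ → A × Bool} (hz : z ∈ full X) (g : ℤ × ℤ) :
    act C τ (shift g z) = shift g (act C τ z) := by
  funext u
  have h := move_shift hX hC (inv_mem hτ) hz g u
  show ((z (u + g)).1, (z (move C τ⁻¹ (shift g (fun w => (z w).1)) u + g)).2) =
    ((z (u + g)).1, (z (move C τ⁻¹ (fun w => (z w).1) (u + g))).2)
  rw [h]

variable [TopologicalSpace A]

lemma continuous_shift (g : ℤ × ℤ) : Continuous (shift g : (ℤ × ℤ → A) → (ℤ × ℤ → A)) :=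
  continuous_pi fun _ => continuous_apply _

lemma continuous_act (hX : ∀ g, ∀ x ∈ X, shift g x ∈ X) (hC : Sep X C H) (hτ : τ ∈ Supp H)
    (hcl : IsClopen C) :
    Continuous (fun z : full X => act C τ (z : ℤ × ℤ → A × Bool)) := by
  refine continuous_pi fun u => ?_
  refine continuous_iff_continuousAt.2 fun z => ?_
  have hfst : Continuous (fun z : full X => (fun w => ((z : ℤ × ℤ → A × Bool) w).1)) :=
    continuous_pi fun w => continuous_fst.comp ((continuous_apply w).comp continuous_subtype_val)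
  have h1 : ∀ᶠ z' : full X in 𝓝 z, ∀ a ∈ H,
      (shift (u - a) (fun w => ((z' : ℤ × ℤ → A × Bool) w).1) ∈ C ↔
        shift (u - a) (fun w => ((z : ℤ × ℤ → A × Bool) w).1) ∈ C) := by
    rw [Finset.eventually_all]
    intro a _
    have hcl' : IsClopen ((fun z : full X =>
        shift (u - a) (fun w => ((z : ℤ × ℤ → A × Bool) w).1)) ⁻¹' C) :=
      hcl.preimage ((continuous_shift _).comp hfst)
    by_cases hz : shift (u - a) (fun w => ((z : ℤ × ℤ → A × Bool) w).1) ∈ C
    · filter_upwards [hcl'.isOpen.mem_nhds (show z ∈ _ from hz)] with z' hz'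
      exact ⟨fun _ => hz, fun _ => hz'⟩
    · filter_upwards [hcl'.compl.isOpen.mem_nhds (show z ∈ _ from hz)] with z' hz'
      exact ⟨fun h => absurd h hz', fun h => absurd h hz⟩
  have h2 : ∀ᶠ z' : full X in 𝓝 z,
      move C τ⁻¹ (fun w => ((z' : ℤ × ℤ → A × Bool) w).1) u =
        move C τ⁻¹ (fun w => ((z : ℤ × ℤ → A × Bool) w).1) u := by
    filter_upwards [h1] with z' hz'
    by_cases h : ∃ a ∈ H, shift (u - a) (fun w => ((z : ℤ × ℤ → A × Bool) w).1) ∈ C
    · obtain ⟨a, ha, hs⟩ := h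
      rw [move_of_type hX hC (inv_mem hτ) z.2 ha hs,
        move_of_type hX hC (inv_mem hτ) z'.2 ha ((hz' a ha).2 hs)]
    · push Not at h
      rw [move_of_not (inv_mem hτ) h,
        move_of_not (inv_mem hτ) (fun a ha => by rw [hz' a ha]; exact h a ha)]
  set v := move C τ⁻¹ (fun w => ((z : ℤ × ℤ → A × Bool) w).1) u with hv
  have h3 : ContinuousAt (fun z' : full X =>
      (((z' : ℤ × ℤ → A × Bool) u).1, ((z' : ℤ × ℤ → A × Bool) v).2)) z := by
    refine Continuous.continuousAt ?_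
    exact (continuous_fst.comp ((continuous_apply u).comp continuous_subtype_val)).prodMk
      (continuous_snd.comp ((continuous_apply v).comp continuous_subtype_val))
  refine h3.congr ?_
  filter_upwards [h2] with z' hz'
  simp only [act, hz']

/-- the automorphism -/
noncomputable def elPerm (hX : ∀ g, ∀ x ∈ X, shift g x ∈ X) (hC : Sep X C H) (hτ : τ ∈ Supp H) :
    Perm (full X) where
  toFun z := ⟨act C τ z, act_mem z.2⟩
  invFun z := ⟨act C τ⁻¹ z, act_mem z.2⟩
  left_inv z := by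
    refine Subtype.ext ?_
    show act C τ⁻¹ (act C τ z) = z
    rw [act_mul hX hC (inv_mem hτ) hτ z.2, inv_mul_cancel, act_one]
  right_inv z := by
    refine Subtype.ext ?_
    show act C τ (act C τ⁻¹ z) = z
    rw [act_mul hX hC hτ (inv_mem hτ) z.2, mul_inv_cancel, act_one]

/-- the homomorphism from the permutations of the displacements to the automorphisms -/
noncomputable def el (hX : ∀ g, ∀ x ∈ X, shift g x ∈ X) (hcl : IsClopen C) (hC : Sep X C H) :
    Supp H →* Aut (full X) where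
  toFun τ := ⟨elPerm hX hC τ.2, by
    refine ⟨?_, ?_, ?_⟩
    · exact Continuous.subtype_mk (continuous_act hX hC τ.2 hcl) _
    · exact Continuous.subtype_mk (continuous_act hX hC (inv_mem τ.2) hcl) _
    · intro g x y
      constructor
      · intro h
        show act C τ y = shift g (act C τ x)
        rw [h, act_shift hX hC τ.2 x.2]
      · intro h
        have h' : act C τ y = shift g (act C τ x) := h
        have h1 : act C (τ : Perm (ℤ × ℤ))⁻¹ (act C τ y) = y := by
          rw [act_mul hX hC (inv_mem τ.2) τ.2 y.2, inv_mul_cancel, act_one]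
        rw [← h1, h', act_shift hX hC (inv_mem τ.2) (act_mem x.2),
          act_mul hX hC (inv_mem τ.2) τ.2 x.2, inv_mul_cancel, act_one]⟩
  map_one' := by
    refine Subtype.ext (Equiv.ext fun z => Subtype.ext ?_)
    show act C 1 z = z
    exact act_one _
  map_mul' τ τ' := by
    refine Subtype.ext (Equiv.ext fun z => Subtype.ext ?_)
    show act C ((τ : Perm (ℤ × ℤ)) * τ') z = act C τ (act C τ' z)
    rw [act_mul hX hC τ.2 τ'.2 z.2]

lemma el_apply (hX : ∀ g, ∀ x ∈ X, shift g x ∈ X) (hcl : IsClopen C) (hC : Sep X C H)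
    (τ : Supp H) (z : full X) :
    ((el hX hcl hC τ : Perm (full X)) z : ℤ × ℤ → A × Bool) = act C τ z := rfl

end act

/-! ### transpositions in finite quotients -/

section quotient

variable {H : Finset (ℤ × ℤ)} {K : Type} [Group K]

lemma swap_mem {a b : ℤ × ℤ} (ha : a ∈ H) (hb : b ∈ H) : swap a b ∈ Supp H := by
  intro c hc
  refine swap_apply_of_ne_of_ne ?_ ?_
  · rintro rfl
    exact hc ha
  · rintro rfl
    exact hc hb

/-- the transposition as an element of `Supp H` -/
def sw (H : Finset (ℤ × ℤ)) (a b : ℤ × ℤ) (ha : a ∈ H) (hb : b ∈ H) : Supp H :=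
  ⟨swap a b, swap_mem ha hb⟩

lemma sw_sq {a b : ℤ × ℤ} (ha : a ∈ H) (hb : b ∈ H) : sw H a b ha hb * sw H a b ha hb = 1 :=
  Subtype.ext (swap_mul_self a b)

lemma sw_braid {o a b : ℤ × ℤ} (ho : o ∈ H) (ha : a ∈ H) (hb : b ∈ H) (hbo : b ≠ o)
    (hba : b ≠ a) :
    sw H o a ho ha * sw H o b ho hb * sw H o a ho ha = sw H a b ha hb := by
  refine Subtype.ext ?_
  show swap o a * swap o b * swap o a = swap a b
  have h := swap_mul_swap_mul_swap (x := b) (y := o) (z := a) hbo hba
  rwa [swap_comm b o] at h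

lemma sw_comm_of_ne {o a b c : ℤ × ℤ} (ho : o ∈ H) (ha : a ∈ H) (hb : b ∈ H) (hc : c ∈ H)
    (hoa : o ≠ a) (hob : o ≠ b) (hca : c ≠ a) (hcb : c ≠ b) :
    sw H a b ha hb * sw H o c ho hc = sw H o c ho hc * sw H a b ha hb := by
  refine Subtype.ext ?_
  show swap a b * swap o c = swap o c * swap a b
  rw [mul_swap_eq_swap_mul, swap_apply_of_ne_of_ne hoa hob, swap_apply_of_ne_of_ne hca hcb]

lemma collapse_aux (ψ : Supp H →* K) {o p q c : ℤ × ℤ} (ho : o ∈ H) (hp : p ∈ H)
    (hq : q ∈ H) (hc : c ∈ H) (hpo : p ≠ o) (hqo : q ≠ o) (hco : c ≠ o) (hpq : p ≠ q)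
    (he : ψ (sw H o p ho hp) = ψ (sw H o q ho hq)) :
    ψ (sw H o c ho hc) = ψ (sw H o p ho hp) := by
  by_cases hcp : c = p
  · subst hcp
    rfl
  by_cases hcq : c = q
  · subst hcq
    exact he.symm
  set t := ψ (sw H o p ho hp) with ht
  set r := ψ (sw H o c ho hc) with hr
  have htt : t * t = 1 := by
    rw [ht, ← map_mul, sw_sq, map_one]
  have hrr : r * r = 1 := by
    rw [hr, ← map_mul, sw_sq, map_one]
  have h1 : ψ (sw H p q hp hq) = t := by
    rw [← sw_braid ho hp hq hqo (Ne.symm hpq), map_mul, map_mul, ← he, htt, one_mul]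
  have h2 : t * r = r * t := by
    rw [← h1, hr, ← map_mul, ← map_mul,
      sw_comm_of_ne ho hp hq hc (Ne.symm hpo) (Ne.symm hqo) hcp hcq]
  have h3 : t * r * t = r * t * r := by
    have e1 : t * r * t = ψ (sw H p c hp hc) := by
      rw [ht, hr, ← map_mul, ← map_mul, sw_braid ho hp hc hco hcp]
    have e2 : r * t * r = ψ (sw H c p hc hp) := by
      rw [ht, hr, ← map_mul, ← map_mul, sw_braid ho hc hp hpo (Ne.symm hcp)]
    have e3 : sw H p c hp hc = sw H c p hc hp := Subtype.ext (swap_comm p c)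
    rw [e1, e2, e3]
  have h4 : t * r * t = r := by
    rw [h2, mul_assoc, htt, mul_one]
  have h5 : r * t * r = t := by
    rw [← h2, mul_assoc, hrr, mul_one]
  rw [h4, h5] at h3
  exact h3

/-- In a small quotient all transpositions `(o b)` have the same image. -/
lemma quotient_collapse [Finite K] (ψ : Supp H →* K) {o b c : ℤ × ℤ} (ho : o ∈ H) (hb : b ∈ H)
    (hc : c ∈ H) (hbo : b ≠ o) (hco : c ≠ o) (hcard : Nat.card K + 1 < H.card) :
    ψ (sw H o b ho hb) = ψ (sw H o c ho hc) := by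
  classical
  haveI : Fintype K := Fintype.ofFinite K
  -- two of the transpositions have the same image
  let f : ℤ × ℤ → K := fun a => if h : a ∈ H then ψ (sw H o a ho h) else 1
  have hlt : (Finset.univ : Finset K).card < (H.erase o).card := by
    rw [Finset.card_erase_of_mem ho, Finset.card_univ, ← Nat.card_eq_fintype_card]
    omega
  obtain ⟨p, hp, q, hq, hpq, he⟩ := Finset.exists_ne_map_eq_of_card_lt_of_maps_to hlt
    (f := f) (fun a _ => Finset.mem_univ _)
  have hp1 := Finset.mem_of_mem_erase hp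
  have hq1 := Finset.mem_of_mem_erase hq
  have hp2 := Finset.ne_of_mem_erase hp
  have hq2 := Finset.ne_of_mem_erase hq
  simp only [f, hp1, hq1, dif_pos] at he
  rw [collapse_aux ψ ho hp1 hq1 hb hp2 hq2 hbo hpq he,
    collapse_aux ψ ho hp1 hq1 hc hp2 hq2 hco hpq he]

end quotient

end Pool.Agent.Lib_MP_b1f496_an
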