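import Pool.Agent.Lib_MP_b1f496_an.Kill

/-!
# Subshifts with dense periodic configurations

If the periodic configurations are dense, the automorphism group is residually finite; density of
the periodic configurations passes from `X` to `X × {0,1}^(ℤ²)`.
-/

namespace Pool.Agent.Lib_MP_b1f496_an

open Set Filter Topology Equiv

variable {B : Type}

lemma per_mod {z : ℤ × ℤ → B} {n : ℤ} (h1 : Function.Periodic z (n, 0))
    (h2 : Function.Periodic z (0, n)) (u : ℤ × ℤ) : z (u.1 % n, u.2 % n) = z u := by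
  have e1 := h1.zsmul (u.1 / n) (u.1 % n, u.2 % n)
  have e2 := h2.zsmul (u.2 / n) ((u.1 % n, u.2 % n) + (u.1 / n) • ((n, 0) : ℤ × ℤ))
  rw [← e1, ← e2]
  congr 1
  refine Prod.ext ?_ ?_
  · simp only [Prod.fst_add, Prod.smul_fst, smul_eq_mul, mul_zero, add_zero]
    rw [mul_comm, Int.emod_add_mul_ediv]
  · simp only [Prod.snd_add, Prod.smul_snd, smul_eq_mul, mul_zero, add_zero]
    rw [mul_comm, Int.emod_add_mul_ediv]

lemma isPeriodic_of {z : ℤ × ℤ → B} {n : ℤ} (hn : 0 < n) (h1 : Function.Periodic z (n, 0))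
    (h2 : Function.Periodic z (0, n)) : IsPeriodic z := by
  refine (((Set.finite_Ico (0 : ℤ) n).prod (Set.finite_Ico (0 : ℤ) n)).image
    fun g => shift g z).subset ?_
  rintro _ ⟨g, rfl⟩
  refine ⟨(g.1 % n, g.2 % n), ⟨⟨Int.emod_nonneg _ hn.ne', Int.emod_lt_of_pos _ hn⟩,
    ⟨Int.emod_nonneg _ hn.ne', Int.emod_lt_of_pos _ hn⟩⟩, ?_⟩
  funext u
  show z (u + (g.1 % n, g.2 % n)) = z (u + g)
  have e1 := h1.zsmul (g.1 / n) (u + (g.1 % n, g.2 % n))
  have e2 := h2.zsmul (g.2 / n) (u + (g.1 % n, g.2 % n) + (g.1 / n) • ((n, 0) : ℤ × ℤ))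
  rw [← e1, ← e2]
  congr 1
  refine Prod.ext ?_ ?_
  · simp only [Prod.fst_add, Prod.smul_fst, smul_eq_mul, mul_zero, add_zero]
    rw [mul_comm, add_assoc, Int.emod_add_mul_ediv]
  · simp only [Prod.snd_add, Prod.smul_snd, smul_eq_mul, mul_zero, add_zero]
    rw [mul_comm, add_assoc, Int.emod_add_mul_ediv]

lemma exists_common_period {z : ℤ × ℤ → B} (hz : IsPeriodic z) :
    ∃ n : ℕ, 0 < n ∧ ∀ k : ℕ, Function.Periodic z (((n * k : ℕ) : ℤ), 0) ∧
      Function.Periodic z (0, ((n * k : ℕ) : ℤ)) := by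
  obtain ⟨p, hp, h1⟩ := exists_period hz (1, 0)
  obtain ⟨q, hq, h2⟩ := exists_period hz (0, 1)
  refine ⟨p * q, Nat.mul_pos hp hq, fun k => ⟨?_, ?_⟩⟩
  · have h3 : Function.Periodic z ((p : ℤ) • ((1, 0) : ℤ × ℤ)) := h1
    have h4 := h3.zsmul ((q * k : ℕ) : ℤ)
    have e : ((q * k : ℕ) : ℤ) • ((p : ℤ) • ((1, 0) : ℤ × ℤ)) = (((p * q * k : ℕ) : ℤ), 0) := by
      refine Prod.ext ?_ ?_
      · simp only [Prod.smul_fst, smul_eq_mul, mul_one]
        push_cast
        ring
      · simp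
    rwa [e] at h4
  · have h3 : Function.Periodic z ((q : ℤ) • ((0, 1) : ℤ × ℤ)) := h2
    have h4 := h3.zsmul ((p * k : ℕ) : ℤ)
    have e : ((p * k : ℕ) : ℤ) • ((q : ℤ) • ((0, 1) : ℤ × ℤ)) = (0, ((p * q * k : ℕ) : ℤ)) := by
      refine Prod.ext ?_ ?_
      · simp
      · simp only [Prod.smul_snd, smul_eq_mul, mul_one]
        push_cast
        ring
    rwa [e] at h4

variable [TopologicalSpace B] [DiscreteTopology B]

/-- Dense periodic configurations imply residual finiteness. -/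
theorem residuallyFinite_of_dense [Finite B] {Z : Set (ℤ × ℤ → B)} (hd : PeriodicDense Z) :
    Group.ResiduallyFinite (Aut Z) := by
  classical
  refine Group.residuallyFinite_of_forall_exists_finite_monoidHom fun g hg => ?_
  obtain ⟨z, hz⟩ : ∃ z : Z, (g : Perm Z) z ≠ z := by
    by_contra hcon
    push Not at hcon
    exact hg (Subtype.ext (Equiv.ext hcon))
  obtain ⟨u, hu⟩ : ∃ u, ((g : Perm Z) z : ℤ × ℤ → B) u ≠ (z : ℤ × ℤ → B) u := by
    by_contra hcon
    push Not at hcon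
    exact hz (Subtype.ext (funext hcon))
  -- a neighbourhood of `z` on which the value at `u` is constant
  have hcont : Continuous fun z' : Z => (((g : Perm Z) z' : ℤ × ℤ → B) u, (z' : ℤ × ℤ → B) u) :=
    ((continuous_apply u).comp (continuous_subtype_val.comp g.2.1)).prodMk
      ((continuous_apply u).comp continuous_subtype_val)
  have hopen : IsOpen {z' : Z | ((g : Perm Z) z' : ℤ × ℤ → B) u ≠ (z' : ℤ × ℤ → B) u} :=
    (isOpen_discrete {p : B × B | p.1 ≠ p.2}).preimage hcont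
  obtain ⟨W, hW, hWe⟩ := isOpen_induced_iff.1 hopen
  have hzW : (z : ℤ × ℤ → B) ∈ W := by
    have : z ∈ Subtype.val ⁻¹' W := by
      rw [hWe]
      exact hu
    exact this
  obtain ⟨y, hyW, hyZ, hyp⟩ := mem_closure_iff.1 (hd z.2) W hW hzW
  have hy : ((g : Perm Z) ⟨y, hyZ⟩ : ℤ × ℤ → B) u ≠ y u := by
    have : (⟨y, hyZ⟩ : Z) ∈ Subtype.val ⁻¹' W := hyW
    rw [hWe] at this
    exact this
  obtain ⟨n, hn, hper⟩ := exists_common_period hyp
  have hper1 := hper 1
  rw [mul_one] at hper1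
  -- the finite invariant set
  let P : Z → Prop := fun z' => (z' : ℤ × ℤ → B) = shift ((n : ℤ), 0) z' ∧
    (z' : ℤ × ℤ → B) = shift (0, (n : ℤ)) z'
  have hP : ∀ (f : Aut Z) (z' : Z), P ((f : Perm Z) z') ↔ P z' := fun f z' =>
    and_congr (f.2.2.2 _ z' z').symm (f.2.2.2 _ z' z').symm
  have hPper : ∀ z' : Z, P z' → Function.Periodic (z' : ℤ × ℤ → B) ((n : ℤ), 0) ∧
      Function.Periodic (z' : ℤ × ℤ → B) (0, (n : ℤ)) := by
    rintro z' ⟨h1, h2⟩
    exact ⟨fun v => (congrFun h1 v).symm, fun v => (congrFun h2 v).symm⟩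
  have : Finite {z' : Z // P z'} := by
    refine Finite.of_injective (β := Fin n × Fin n → B)
      (fun z' p => ((z' : Z) : ℤ × ℤ → B) ((p.1 : ℕ), (p.2 : ℕ))) ?_
    intro z₁ z₂ h12
    refine Subtype.ext (Subtype.ext (funext fun v => ?_))
    have hn' : (0 : ℤ) < n := by exact_mod_cast hn
    obtain ⟨a1, a2⟩ := hPper _ z₁.2
    obtain ⟨b1, b2⟩ := hPper _ z₂.2
    rw [← per_mod a1 a2 v, ← per_mod b1 b2 v]
    have c1 := Int.emod_nonneg v.1 hn'.ne'
    have c2 := Int.emod_lt_of_pos v.1 hn'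
    have c3 := Int.emod_nonneg v.2 hn'.ne'
    have c4 := Int.emod_lt_of_pos v.2 hn'
    have h13 := congrFun h12 (⟨(v.1 % n).toNat, by omega⟩, ⟨(v.2 % n).toNat, by omega⟩)
    simp only [Int.toNat_of_nonneg c1, Int.toNat_of_nonneg c3] at h13
    exact h13
  let φ : Aut Z →* Perm {z' : Z // P z'} :=
    { toFun := fun f => Perm.subtypePerm (f : Perm Z) (hP f)
      map_one' := by
        refine Equiv.ext fun z' => Subtype.ext ?_
        rfl
      map_mul' := by
        intro f f'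
        refine Equiv.ext fun z' => Subtype.ext ?_
        rfl }
  refine ⟨Perm {z' : Z // P z'}, inferInstance, inferInstance, φ, fun h1 => hy ?_⟩
  have hPy : P ⟨y, hyZ⟩ := ⟨funext fun v => (hper1.1 v).symm, funext fun v => (hper1.2 v).symm⟩
  have h2 := congrArg Subtype.val (Equiv.congr_fun h1 ⟨⟨y, hyZ⟩, hPy⟩)
  have h3 : (g : Perm Z) ⟨y, hyZ⟩ = ⟨y, hyZ⟩ := h2
  rw [h3]

/-- Density of the periodic configurations passes to the product with a full shift. -/
theorem dense_full {X : Set (ℤ × ℤ → B)} (hd : PeriodicDense X) : PeriodicDense (full X) := by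
  classical
  intro z hz
  rw [mem_closure_iff]
  intro W hW hzW
  obtain ⟨I, U, hU, hUW⟩ := isOpen_pi_iff.1 hW z hzW
  -- a periodic configuration of `X` that agrees with the first layer on `I`
  have hopen : IsOpen {x : ℤ × ℤ → B | ∀ i ∈ I, x i = (z i).1} := by
    have : {x : ℤ × ℤ → B | ∀ i ∈ I, x i = (z i).1} = ⋂ i ∈ I, {x | x i = (z i).1} := by
      ext x
      simp
    rw [this]
    refine isOpen_biInter_finset fun i _ => ?_
    have hci : Continuous fun x : ℤ × ℤ → B => x i := continuous_apply i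
    exact (isOpen_discrete ({(z i).1} : Set B)).preimage hci
  obtain ⟨x, hxI, hxX, hxp⟩ := mem_closure_iff.1 (hd hz) _ hopen (fun i _ => rfl)
  obtain ⟨n, hn, hper⟩ := exists_common_period hxp
  -- a bound for the coordinates of `I`
  obtain ⟨R, hR⟩ : ∃ R : ℕ, ∀ i ∈ I, |i.1| ≤ R ∧ |i.2| ≤ R := by
    refine ⟨I.sup fun i => i.1.natAbs + i.2.natAbs, fun i hi => ?_⟩
    have h1 : i.1.natAbs + i.2.natAbs ≤ I.sup fun i => i.1.natAbs + i.2.natAbs :=
      Finset.le_sup (f := fun i : ℤ × ℤ => i.1.natAbs + i.2.natAbs) hi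
    constructor
    · rw [Int.abs_eq_natAbs]
      omega
    · rw [Int.abs_eq_natAbs]
      omega
  set M : ℕ := 2 * R + 1 with hM
  let c : ℤ × ℤ → ℤ × ℤ := fun u => ((u.1 + R) % (M : ℤ) - R, (u.2 + R) % (M : ℤ) - R)
  have hcI : ∀ i ∈ I, c i = i := by
    intro i hi
    obtain ⟨h1, h2⟩ := hR i hi
    rw [abs_le] at h1 h2
    refine Prod.ext ?_ ?_
    · show (i.1 + R) % (M : ℤ) - R = i.1
      rw [Int.emod_eq_of_lt (by omega) (by omega)]
      ring
    · show (i.2 + R) % (M : ℤ) - R = i.2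
      rw [Int.emod_eq_of_lt (by omega) (by omega)]
      ring
  have hc1 : ∀ (k : ℤ) u, c (u + (M * k, 0)) = c u := by
    intro k u
    refine Prod.ext ?_ ?_
    · show (u.1 + M * k + R) % (M : ℤ) - R = (u.1 + R) % (M : ℤ) - R
      rw [show u.1 + M * k + R = u.1 + R + M * k by ring, Int.add_mul_emod_self_left]
    · show (u.2 + 0 + R) % (M : ℤ) - R = (u.2 + R) % (M : ℤ) - R
      rw [add_zero]
  have hc2 : ∀ (k : ℤ) u, c (u + (0, M * k)) = c u := by
    intro k u
    refine Prod.ext ?_ ?_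
    · show (u.1 + 0 + R) % (M : ℤ) - R = (u.1 + R) % (M : ℤ) - R
      rw [add_zero]
    · show (u.2 + M * k + R) % (M : ℤ) - R = (u.2 + R) % (M : ℤ) - R
      rw [show u.2 + M * k + R = u.2 + R + M * k by ring, Int.add_mul_emod_self_left]
  refine ⟨fun u => (x u, (z (c u)).2), ?_, ?_, ?_⟩
  · apply hUW
    intro i hi
    have hi' : i ∈ I := hi
    have e : (x i, (z (c i)).2) = z i := by
      rw [hcI i hi', hxI i hi']
    show (x i, (z (c i)).2) ∈ U i
    rw [e]
    exact (hU i hi').2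
  · exact hxX
  · have hnM : (0 : ℤ) < ((n * M : ℕ) : ℤ) := by
      have : 0 < n * M := Nat.mul_pos hn (by omega)
      exact_mod_cast this
    refine isPeriodic_of hnM ?_ ?_
    · intro u
      have e1 := (hper M).1 u
      have e2 : c (u + (((n * M : ℕ) : ℤ), 0)) = c u := by
        have : (((n * M : ℕ) : ℤ), (0 : ℤ)) = (M * (n : ℤ), 0) := by
          push_cast
          rw [mul_comm]
        rw [this]
        exact hc1 n u
      show (x (u + (((n * M : ℕ) : ℤ), 0)), (z (c (u + (((n * M : ℕ) : ℤ), 0)))).2) = _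
      rw [e1, e2]
    · intro u
      have e1 := (hper M).2 u
      have e2 : c (u + (0, ((n * M : ℕ) : ℤ))) = c u := by
        have : ((0 : ℤ), ((n * M : ℕ) : ℤ)) = (0, M * (n : ℤ)) := by
          push_cast
          rw [mul_comm]
        rw [this]
        exact hc2 n u
      show (x (u + (0, ((n * M : ℕ) : ℤ))), (z (c (u + (0, ((n * M : ℕ) : ℤ))))).2) = _
      rw [e1, e2]

/-- The equivalence. -/
theorem residuallyFinite_iff [Finite B] {X : Set (ℤ × ℤ → B)} (hX : IsSubshift X) :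
    Group.ResiduallyFinite (Aut (full X)) ↔ PeriodicDense X := by
  constructor
  · intro h
    by_contra hd
    exact not_residuallyFinite hX hd h
  · intro hd
    exact residuallyFinite_of_dense (dense_full hd)

omit [TopologicalSpace B] [DiscreteTopology B] in
/-- Strong irreducibility passes to the product with a full shift. -/
theorem stronglyIrreducible_full {X : Set (ℤ × ℤ → B)} (h : StronglyIrreducible X) :
    StronglyIrreducible (full X) := by
  classical
  obtain ⟨Δ, hΔ⟩ := h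
  refine ⟨insert 0 Δ, fun Ω₁ Ω₂ hΩ z₁ hz₁ z₂ hz₂ => ?_⟩
  obtain ⟨x, hx, h1, h2⟩ := hΔ Ω₁ Ω₂ (fun g hg s hs => hΩ g hg s (Finset.mem_insert_of_mem hs))
    _ hz₁ _ hz₂
  have hdis : ∀ g ∈ Ω₁, g ∉ Ω₂ := fun g hg => by
    have := hΩ g hg 0 (Finset.mem_insert_self _ _)
    rwa [add_zero] at this
  refine ⟨fun u => (x u, if u ∈ Ω₁ then (z₁ u).2 else (z₂ u).2), hx, ?_, ?_⟩
  · intro g hg
    refine Prod.ext (h1 g hg) ?_
    simp [hg]
  · intro g hg
    refine Prod.ext (h2 g hg) ?_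
    have : g ∉ Ω₁ := fun h => hdis g h hg
    simp [this]

omit [DiscreteTopology B] in
/-- The product of a subshift with a full shift is a subshift. -/
theorem isSubshift_full {X : Set (ℤ × ℤ → B)} (h : IsSubshift X) : IsSubshift (full X) := by
  refine ⟨?_, fun g z hz => h.2 g _ hz⟩
  exact h.1.preimage (continuous_pi fun u => continuous_fst.comp (continuous_apply u))

end Pool.Agent.Lib_MP_b1f496_an
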