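import Mathlib

/-!
# A strongly irreducible subshift over `ℤ²` without periodic configurations

(The existence of such a subshift is due to M. Hochman, arXiv 2401.02273; used for AutNotResiduallyFinite.)

`XX` is the set of all `x : ℤ² → {0,1,2,3}` such that `x - √2` is the divergence of a real valued
flow on the edges of the grid with values in `[-1/2, 1/2]`.

* It is closed (compactness) and shift-invariant, and not empty.
* Every `x ∈ XX` has uniform density `√2`, so no `x ∈ XX` has a finite orbit.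
* Strong irreducibility: let `φ₁, φ₂` be flows of `x₁, x₂ ∈ XX`.  Modulo `1` both have divergence
  `-√2`, so `φ₁ - φ₂` is divergence free modulo `1`, hence the rotated gradient of a function `η`
  on the faces of the grid with values in `ℝ/ℤ`.  Replace `η` by `0` at the faces not touching
  `Ω₂`.  This gives a flow modulo `1` with divergence `-√2` which is `φ₁` around `Ω₁` and `φ₂`
  around `Ω₂`.  Lift it to a real flow, with values in `[-1/2, 1/2]`, equal to `φ₁` around `Ω₁`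
  and to `φ₂` around `Ω₂`.  Its divergence plus `√2` is integral, and is the wanted configuration.
-/

namespace Pool.Agent.Lib_MP_b1f496_an

open Set Filter Topology

/-- the shift action of `ℤ²` -/
def shift {A : Type} (g : ℤ × ℤ) (x : ℤ × ℤ → A) : ℤ × ℤ → A := fun h => x (h + g)

/-- A subshift over `ℤ²` (`A` carries the discrete topology): closed and shift-invariant. -/
def IsSubshift {A : Type} [TopologicalSpace A] (X : Set (ℤ × ℤ → A)) : Prop :=
  IsClosed X ∧ ∀ g : ℤ × ℤ, ∀ x ∈ X, shift g x ∈ X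

/-- Strong irreducibility. -/
def StronglyIrreducible {A : Type} (X : Set (ℤ × ℤ → A)) : Prop :=
  ∃ Δ : Finset (ℤ × ℤ), ∀ Ω₁ Ω₂ : Finset (ℤ × ℤ),
    (∀ g ∈ Ω₁, ∀ s ∈ Δ, g + s ∉ Ω₂) → ∀ x₁ ∈ X, ∀ x₂ ∈ X,
      ∃ x ∈ X, (∀ g ∈ Ω₁, x g = x₁ g) ∧ (∀ g ∈ Ω₂, x g = x₂ g)

/-- A configuration is periodic if its shift orbit is finite. -/
def IsPeriodic {A : Type} (x : ℤ × ℤ → A) : Prop := (range fun g : ℤ × ℤ => shift g x).Finite

/-! ### potentials -/

lemma antideriv {G : Type*} [AddCommGroup G] (f : ℤ → G) (c : G) :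
    ∃ F : ℤ → G, F 0 = c ∧ ∀ n, F n - F (n - 1) = f n := by
  refine ⟨fun n => match n with
    | Int.ofNat m => c + ∑ k ∈ Finset.range m, f ((k : ℤ) + 1)
    | Int.negSucc m => c - ∑ k ∈ Finset.range (m + 1), f (-(k : ℤ)), ?_, ?_⟩
  · show c + ∑ k ∈ Finset.range 0, f ((k : ℤ) + 1) = c
    simp
  · intro n
    rcases n with m | m
    · rcases m with _ | m
      · show (c + ∑ k ∈ Finset.range 0, f ((k : ℤ) + 1)) -
          (c - ∑ k ∈ Finset.range (0 + 1), f (-(k : ℤ))) = f 0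
        simp
      · have h : Int.ofNat (m + 1) - 1 = Int.ofNat m := by simp
        rw [h]
        show (c + ∑ k ∈ Finset.range (m + 1), f ((k : ℤ) + 1)) -
          (c + ∑ k ∈ Finset.range m, f ((k : ℤ) + 1)) = f (Int.ofNat (m + 1))
        rw [Finset.sum_range_succ]
        simp
    · have h : Int.negSucc m - 1 = Int.negSucc (m + 1) := rfl
      rw [h]
      show (c - ∑ k ∈ Finset.range (m + 1), f (-(k : ℤ))) -
          (c - ∑ k ∈ Finset.range (m + 1 + 1), f (-(k : ℤ))) = f (Int.negSucc m)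
      rw [Finset.sum_range_succ _ (m + 1)]
      have h2 : Int.negSucc m = -((m + 1 : ℕ) : ℤ) := rfl
      rw [h2]
      abel

lemma potential {G : Type*} [AddCommGroup G] (a b : ℤ → ℤ → G)
    (hdiv : ∀ i j, a i j - a (i - 1) j + (b i j - b i (j - 1)) = 0) :
    ∃ η : ℤ → ℤ → G, ∀ i j, a i j = η i j - η i (j - 1) ∧ b i j = η (i - 1) j - η i j := by
  obtain ⟨c, -, hc⟩ := antideriv (fun i => -b i 0) 0
  choose η hη0 hη using fun i => antideriv (a i) (c i)
  refine ⟨η, fun i j => ⟨(hη i j).symm, ?_⟩⟩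
  have hstep : ∀ j, (η i j - η (i - 1) j + b i j) = (η i (j - 1) - η (i - 1) (j - 1) + b i (j - 1)) := by
    intro j
    have h1 := hη i j
    have h2 := hη (i - 1) j
    have h3 := hdiv i j
    rw [← sub_eq_zero]
    calc _ = (η i j - η i (j - 1)) - (η (i - 1) j - η (i - 1) (j - 1)) + (b i j - b i (j - 1)) := by
          abel
      _ = 0 := by rw [h1, h2]; exact h3
  have h0 : η i 0 - η (i - 1) 0 + b i 0 = 0 := by
    rw [hη0, hη0, hc i]
    abel
  have hall : ∀ j, η i j - η (i - 1) j + b i j = 0 := by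
    intro j
    induction j using Int.induction_on with
    | zero => exact h0
    | succ k ih =>
      have := hstep ((k : ℤ) + 1)
      rw [add_sub_cancel_right] at this
      rw [this]; exact ih
    | pred k ih =>
      rw [← hstep (-(k : ℤ))]; exact ih
  have := hall j
  rw [← sub_eq_zero]
  calc b i j - (η (i - 1) j - η i j) = η i j - η (i - 1) j + b i j := by abel
    _ = 0 := this

/-! ### the subshift -/

/-- `(h, v)` is a flow with capacity `1/2` and divergence `x - √2`. -/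
def IsFlow (x : ℤ × ℤ → Fin 4) (h v : ℤ × ℤ → ℝ) : Prop :=
  (∀ g, |h g| ≤ 1 / 2) ∧ (∀ g, |v g| ≤ 1 / 2) ∧
    ∀ i j : ℤ, (((x (i, j) : Fin 4) : ℕ) : ℝ) - √2 =
      h (i, j) - h (i - 1, j) + (v (i, j) - v (i, j - 1))

/-- The subshift. -/
def XX : Set (ℤ × ℤ → Fin 4) := {x | ∃ h v, IsFlow x h v}

lemma isSubshift_XX : IsSubshift XX := by
  constructor
  · -- compactness
    set K : Set ((ℤ × ℤ → Fin 4) × (ℤ × ℤ → ℝ) × (ℤ × ℤ → ℝ)) :=
      {p | IsFlow p.1 p.2.1 p.2.2} with hK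
    have hclosed : IsClosed K := by
      have h1 : ∀ g : ℤ × ℤ, Continuous (fun p : (ℤ × ℤ → Fin 4) × (ℤ × ℤ → ℝ) × (ℤ × ℤ → ℝ) =>
          (((p.1 g : Fin 4) : ℕ) : ℝ)) := by
        intro g
        have hc : Continuous (fun a : Fin 4 => ((a : ℕ) : ℝ)) := continuous_of_discreteTopology
        exact hc.comp ((continuous_apply g).comp continuous_fst)
      have h2 : ∀ g : ℤ × ℤ, Continuous (fun p : (ℤ × ℤ → Fin 4) × (ℤ × ℤ → ℝ) × (ℤ × ℤ → ℝ) =>
          p.2.1 g) := fun g => (continuous_apply g).comp (continuous_fst.comp continuous_snd)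
      have h3 : ∀ g : ℤ × ℤ, Continuous (fun p : (ℤ × ℤ → Fin 4) × (ℤ × ℤ → ℝ) × (ℤ × ℤ → ℝ) =>
          p.2.2 g) := fun g => (continuous_apply g).comp (continuous_snd.comp continuous_snd)
      have e : K = (⋂ g, {p | |p.2.1 g| ≤ 1 / 2}) ∩ ((⋂ g, {p | |p.2.2 g| ≤ 1 / 2}) ∩
          ⋂ i : ℤ, ⋂ j : ℤ, {p | (((p.1 (i, j) : Fin 4) : ℕ) : ℝ) - √2 =
            p.2.1 (i, j) - p.2.1 (i - 1, j) + (p.2.2 (i, j) - p.2.2 (i, j - 1))}) := by
        ext p
        simp only [hK, IsFlow, mem_ofPred_eq, mem_inter_iff, mem_iInter]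
      rw [e]
      refine (isClosed_iInter fun g => isClosed_le (h2 g).abs continuous_const).inter
        ((isClosed_iInter fun g => isClosed_le (h3 g).abs continuous_const).inter
        (isClosed_iInter fun i => isClosed_iInter fun j => isClosed_eq ?_ ?_))
      · exact (h1 (i, j)).sub continuous_const
      · exact ((h2 (i, j)).sub (h2 (i - 1, j))).add ((h3 (i, j)).sub (h3 (i, j - 1)))
    have hsub : K ⊆ univ ×ˢ ((pi univ fun _ => Icc (-(1 / 2) : ℝ) (1 / 2)) ×ˢ
        (pi univ fun _ => Icc (-(1 / 2) : ℝ) (1 / 2))) := by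
      rintro ⟨x, h, v⟩ ⟨hh, hv, -⟩
      exact ⟨mem_univ _, fun g _ => abs_le.1 (hh g), fun g _ => abs_le.1 (hv g)⟩
    have hcomp : IsCompact K := by
      refine IsCompact.of_isClosed_subset ?_ hclosed hsub
      exact isCompact_univ.prod ((isCompact_univ_pi fun _ => isCompact_Icc).prod
        (isCompact_univ_pi fun _ => isCompact_Icc))
    have him : XX = Prod.fst '' K := by
      ext x
      constructor
      · rintro ⟨h, v, hf⟩
        exact ⟨(x, h, v), hf, rfl⟩
      · rintro ⟨⟨x', h, v⟩, hf, rfl⟩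
        exact ⟨h, v, hf⟩
    rw [him]
    exact (hcomp.image continuous_fst).isClosed
  · rintro g x ⟨h, v, hh, hv, hd⟩
    refine ⟨fun q => h (q + g), fun q => v (q + g), fun q => hh _, fun q => hv _, ?_⟩
    intro i j
    have := hd (i + g.1) (j + g.2)
    have e1 : ((i - 1, j) : ℤ × ℤ) + g = (i + g.1 - 1, j + g.2) := by
      ext
      · simp; ring
      · simp
    have e2 : ((i, j - 1) : ℤ × ℤ) + g = (i + g.1, j + g.2 - 1) := by
      ext
      · simp
      · simp; ring
    have e3 : ((i, j) : ℤ × ℤ) + g = (i + g.1, j + g.2) := rfl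
    simp only [shift, e1, e2, e3]
    exact this

/-- a real number with integral difference to `√2` shift and close to `√2` is a symbol -/
lemma exists_symbol {t : ℝ} (k : ℤ) (hk : t + √2 = k) (ht : |t| ≤ 2) :
    ∃ a : Fin 4, ((a : ℕ) : ℝ) - √2 = t := by
  have h1 : (1.4 : ℝ) < √2 := by
    rw [Real.lt_sqrt (by norm_num)]; norm_num
  have h2 : √2 < (1.5 : ℝ) := by
    rw [Real.sqrt_lt' (by norm_num)]; norm_num
  have h3 := abs_le.1 ht
  have h4 : (-1 : ℝ) < k := by rw [← hk]; linarith [h3.1]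
  have h5 : (k : ℝ) < 4 := by rw [← hk]; linarith [h3.2]
  have h6 : (-1 : ℤ) < k := by exact_mod_cast h4
  have h7 : k < 4 := by exact_mod_cast h5
  have h8 : 0 ≤ k := by omega
  refine ⟨⟨k.toNat, by omega⟩, ?_⟩
  have h9 : ((k.toNat : ℕ) : ℝ) = (k : ℝ) := by
    have : ((k.toNat : ℕ) : ℤ) = k := Int.toNat_of_nonneg h8
    exact_mod_cast congrArg (fun z : ℤ => (z : ℝ)) this
  simp only [h9]
  linarith

/-- lift of a class modulo `1` to `[-1/2, 1/2]` -/
lemma exists_lift (g : UnitAddCircle) : ∃ r : ℝ, |r| ≤ 1 / 2 ∧ (r : UnitAddCircle) = g := by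
  obtain ⟨t, rfl⟩ := QuotientAddGroup.mk_surjective g
  refine ⟨t - round t, abs_sub_round t, ?_⟩
  rw [AddCircle.coe_sub]
  have : ((round t : ℝ) : UnitAddCircle) = 0 := by
    rw [AddCircle.coe_eq_zero_iff]
    exact ⟨round t, by simp⟩
  rw [this, sub_zero]

lemma coe_int (k : ℤ) : ((k : ℝ) : UnitAddCircle) = 0 := by
  rw [AddCircle.coe_eq_zero_iff]
  exact ⟨k, by simp⟩

lemma coe_nat (k : ℕ) : ((k : ℝ) : UnitAddCircle) = 0 := by
  have := coe_int k
  exact_mod_cast this


/-- the neighbourhood used for strong irreducibility -/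
def nbhd : Finset (ℤ × ℤ) := {-1, 0, 1} ×ˢ {-1, 0, 1}

/-- `(i, j)` is a face with a corner in `Ω` -/
def Touch (Ω : Finset (ℤ × ℤ)) (i j : ℤ) : Prop :=
  (i, j) ∈ Ω ∨ (i + 1, j) ∈ Ω ∨ (i, j + 1) ∈ Ω ∨ (i + 1, j + 1) ∈ Ω

theorem stronglyIrreducible_XX : StronglyIrreducible XX := by
  classical
  refine ⟨nbhd, ?_⟩
  rintro Ω₁ Ω₂ hdisj x₁ ⟨h₁, v₁, hh₁, hv₁, hd₁⟩ x₂ ⟨h₂, v₂, hh₂, hv₂, hd₂⟩
  -- disjointness in coordinates
  have hdis : ∀ i j i' j' : ℤ, (i, j) ∈ Ω₁ → |i' - i| ≤ 1 → |j' - j| ≤ 1 → (i', j') ∉ Ω₂ := by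
    intro i j i' j' h hi hj
    have hs : (i' - i, j' - j) ∈ nbhd := by
      have h1 := abs_le.1 hi
      have h2 := abs_le.1 hj
      simp only [nbhd, Finset.mem_product, Finset.mem_insert, Finset.mem_singleton]
      constructor <;> omega
    have := hdisj (i, j) h _ hs
    have e : ((i, j) : ℤ × ℤ) + (i' - i, j' - j) = (i', j') := by
      ext
      · simp
      · simp
    rwa [e] at this
  -- the potential of the difference modulo one
  obtain ⟨η, hη⟩ := potential (G := UnitAddCircle)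
    (fun i j => ((h₁ (i, j) - h₂ (i, j) : ℝ) : UnitAddCircle))
    (fun i j => ((v₁ (i, j) - v₂ (i, j) : ℝ) : UnitAddCircle)) (by
      intro i j
      have e1 := hd₁ i j
      have e2 := hd₂ i j
      have e3 : (h₁ (i, j) - h₂ (i, j)) - (h₁ (i - 1, j) - h₂ (i - 1, j)) +
          ((v₁ (i, j) - v₂ (i, j)) - (v₁ (i, j - 1) - v₂ (i, j - 1))) =
          (((x₁ (i, j) : Fin 4) : ℕ) : ℝ) - (((x₂ (i, j) : Fin 4) : ℕ) : ℝ) := by linarith
      rw [← AddCircle.coe_sub, ← AddCircle.coe_sub, ← AddCircle.coe_add, e3, AddCircle.coe_sub,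
        coe_nat, coe_nat, sub_zero])
  set η' : ℤ → ℤ → UnitAddCircle := fun i j => if Touch Ω₂ i j then η i j else 0 with hη'
  -- the interpolated flow modulo one
  set H : ℤ → ℤ → UnitAddCircle := fun i j => (h₁ (i, j) : UnitAddCircle) - (η' i j - η' i (j - 1))
    with hH
  set V : ℤ → ℤ → UnitAddCircle := fun i j => (v₁ (i, j) : UnitAddCircle) - (η' (i - 1) j - η' i j)
    with hV
  choose l hl1 hl2 using exists_lift
  set h : ℤ × ℤ → ℝ := fun g => if (g.1, g.2) ∈ Ω₁ ∨ (g.1 + 1, g.2) ∈ Ω₁ then h₁ g else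
    if (g.1, g.2) ∈ Ω₂ ∨ (g.1 + 1, g.2) ∈ Ω₂ then h₂ g else l (H g.1 g.2) with hh
  set v : ℤ × ℤ → ℝ := fun g => if (g.1, g.2) ∈ Ω₁ ∨ (g.1, g.2 + 1) ∈ Ω₁ then v₁ g else
    if (g.1, g.2) ∈ Ω₂ ∨ (g.1, g.2 + 1) ∈ Ω₂ then v₂ g else l (V g.1 g.2) with hv
  have hhb : ∀ g, |h g| ≤ 1 / 2 := by
    intro g
    simp only [hh]
    split_ifs
    · exact hh₁ g
    · exact hh₂ g
    · exact hl1 _
  have hvb : ∀ g, |v g| ≤ 1 / 2 := by
    intro g
    simp only [hv]
    split_ifs
    · exact hv₁ g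
    · exact hv₂ g
    · exact hl1 _
  have hnot : ∀ i j : ℤ, (∃ i' j' : ℤ, (i', j') ∈ Ω₁ ∧ i' - 1 ≤ i ∧ i ≤ i' ∧ j' - 1 ≤ j ∧ j ≤ j') →
      ¬ Touch Ω₂ i j := by
    rintro i j ⟨i', j', hm, a1, a2, a3, a4⟩ ht
    rcases ht with ht | ht | ht | ht <;>
    · refine hdis i' j' _ _ hm ?_ ?_ ht
      · rw [abs_le]; constructor <;> omega
      · rw [abs_le]; constructor <;> omega
  have hhc : ∀ i j : ℤ, (h (i, j) : UnitAddCircle) = H i j := by
    intro i j
    by_cases c1 : (i, j) ∈ Ω₁ ∨ (i + 1, j) ∈ Ω₁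
    · have e : h (i, j) = h₁ (i, j) := by simp only [hh]; rw [if_pos c1]
      have n1 : ¬ Touch Ω₂ i j := by
        rcases c1 with c1 | c1
        · exact hnot i j ⟨i, j, c1, by omega, by omega, by omega, by omega⟩
        · exact hnot i j ⟨i + 1, j, c1, by omega, by omega, by omega, by omega⟩
      have n2 : ¬ Touch Ω₂ i (j - 1) := by
        rcases c1 with c1 | c1
        · exact hnot i (j - 1) ⟨i, j, c1, by omega, by omega, by omega, by omega⟩
        · exact hnot i (j - 1) ⟨i + 1, j, c1, by omega, by omega, by omega, by omega⟩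
      simp only [hH, hη']
      rw [e, if_neg n1, if_neg n2, sub_zero, sub_zero]
    · by_cases c2 : (i, j) ∈ Ω₂ ∨ (i + 1, j) ∈ Ω₂
      · have e : h (i, j) = h₂ (i, j) := by simp only [hh]; rw [if_neg c1, if_pos c2]
        have t1 : Touch Ω₂ i j := by
          rcases c2 with c2 | c2
          · exact Or.inl c2
          · exact Or.inr (Or.inl c2)
        have t2 : Touch Ω₂ i (j - 1) := by
          rcases c2 with c2 | c2
          · exact Or.inr (Or.inr (Or.inl (by rwa [sub_add_cancel])))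
          · exact Or.inr (Or.inr (Or.inr (by rwa [sub_add_cancel])))
        simp only [hH, hη']
        rw [e, if_pos t1, if_pos t2, ← (hη i j).1, AddCircle.coe_sub]
        abel
      · have e : h (i, j) = l (H i j) := by simp only [hh]; rw [if_neg c1, if_neg c2]
        rw [e, hl2]
  have hvc : ∀ i j : ℤ, (v (i, j) : UnitAddCircle) = V i j := by
    intro i j
    by_cases c1 : (i, j) ∈ Ω₁ ∨ (i, j + 1) ∈ Ω₁
    · have e : v (i, j) = v₁ (i, j) := by simp only [hv]; rw [if_pos c1]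
      have n1 : ¬ Touch Ω₂ i j := by
        rcases c1 with c1 | c1
        · exact hnot i j ⟨i, j, c1, by omega, by omega, by omega, by omega⟩
        · exact hnot i j ⟨i, j + 1, c1, by omega, by omega, by omega, by omega⟩
      have n2 : ¬ Touch Ω₂ (i - 1) j := by
        rcases c1 with c1 | c1
        · exact hnot (i - 1) j ⟨i, j, c1, by omega, by omega, by omega, by omega⟩
        · exact hnot (i - 1) j ⟨i, j + 1, c1, by omega, by omega, by omega, by omega⟩
      simp only [hV, hη']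
      rw [e, if_neg n1, if_neg n2, sub_zero, sub_zero]
    · by_cases c2 : (i, j) ∈ Ω₂ ∨ (i, j + 1) ∈ Ω₂
      · have e : v (i, j) = v₂ (i, j) := by simp only [hv]; rw [if_neg c1, if_pos c2]
        have t1 : Touch Ω₂ i j := by
          rcases c2 with c2 | c2
          · exact Or.inl c2
          · exact Or.inr (Or.inr (Or.inl c2))
        have t2 : Touch Ω₂ (i - 1) j := by
          rcases c2 with c2 | c2
          · exact Or.inr (Or.inl (by rwa [sub_add_cancel]))
          · exact Or.inr (Or.inr (Or.inr (by rwa [sub_add_cancel])))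
        simp only [hV, hη']
        rw [e, if_pos t1, if_pos t2, ← (hη i j).2, AddCircle.coe_sub]
        abel
      · have e : v (i, j) = l (V i j) := by simp only [hv]; rw [if_neg c1, if_neg c2]
        rw [e, hl2]
  -- the divergence is integral after adding √2
  have hint : ∀ i j : ℤ, ∃ k : ℤ,
      (h (i, j) - h (i - 1, j) + (v (i, j) - v (i, j - 1))) + √2 = k := by
    intro i j
    have e1 := hd₁ i j
    have e2 : (((h (i, j) - h (i - 1, j) + (v (i, j) - v (i, j - 1))) -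
        (h₁ (i, j) - h₁ (i - 1, j) + (v₁ (i, j) - v₁ (i, j - 1))) : ℝ) : UnitAddCircle) = 0 := by
      rw [AddCircle.coe_sub, AddCircle.coe_add, AddCircle.coe_sub, AddCircle.coe_sub,
        AddCircle.coe_add, AddCircle.coe_sub, AddCircle.coe_sub, hhc, hhc, hvc, hvc]
      simp only [hH, hV]
      abel
    rw [AddCircle.coe_eq_zero_iff] at e2
    obtain ⟨n, hn⟩ := e2
    refine ⟨n + (((x₁ (i, j) : Fin 4) : ℕ) : ℤ), ?_⟩
    push_cast
    have hn' : (n : ℝ) = (h (i, j) - h (i - 1, j) + (v (i, j) - v (i, j - 1))) -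
        (h₁ (i, j) - h₁ (i - 1, j) + (v₁ (i, j) - v₁ (i, j - 1))) := by
      simpa using hn
    rw [hn']
    linarith
  have hbd : ∀ i j : ℤ, |h (i, j) - h (i - 1, j) + (v (i, j) - v (i, j - 1))| ≤ 2 := by
    intro i j
    have a1 := abs_le.1 (hhb (i, j))
    have a2 := abs_le.1 (hhb (i - 1, j))
    have a3 := abs_le.1 (hvb (i, j))
    have a4 := abs_le.1 (hvb (i, j - 1))
    rw [abs_le]
    constructor <;> linarith [a1.1, a1.2, a2.1, a2.2, a3.1, a3.2, a4.1, a4.2]
  have hsym : ∀ g : ℤ × ℤ, ∃ a : Fin 4, ((a : ℕ) : ℝ) - √2 =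
      h (g.1, g.2) - h (g.1 - 1, g.2) + (v (g.1, g.2) - v (g.1, g.2 - 1)) := by
    intro g
    obtain ⟨k, hk⟩ := hint g.1 g.2
    exact exists_symbol k hk (hbd g.1 g.2)
  choose x hx using hsym
  have hinj : ∀ a b : Fin 4, ((a : ℕ) : ℝ) - √2 = ((b : ℕ) : ℝ) - √2 → a = b := by
    intro a b hab
    have : ((a : ℕ) : ℝ) = ((b : ℕ) : ℝ) := by linarith
    exact Fin.ext (by exact_mod_cast this)
  refine ⟨x, ⟨h, v, hhb, hvb, fun i j => hx (i, j)⟩, ?_, ?_⟩
  · rintro ⟨i, j⟩ hg
    apply hinj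
    rw [hx, hd₁ i j]
    have e1 : h (i, j) = h₁ (i, j) := by simp only [hh]; rw [if_pos (Or.inl hg)]
    have e2 : h (i - 1, j) = h₁ (i - 1, j) := by
      simp only [hh]; rw [if_pos (Or.inr (by rwa [sub_add_cancel]))]
    have e3 : v (i, j) = v₁ (i, j) := by simp only [hv]; rw [if_pos (Or.inl hg)]
    have e4 : v (i, j - 1) = v₁ (i, j - 1) := by
      simp only [hv]; rw [if_pos (Or.inr (by rwa [sub_add_cancel]))]
    simp only [e1, e2, e3, e4]
  · rintro ⟨i, j⟩ hg
    apply hinj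
    rw [hx, hd₂ i j]
    have n0 : ∀ i' j' : ℤ, |i' - i| ≤ 1 → |j' - j| ≤ 1 → (i', j') ∉ Ω₁ := by
      intro i' j' a1 a2 hm
      refine hdis i' j' i j hm ?_ ?_ hg
      · rw [abs_sub_comm]; exact a1
      · rw [abs_sub_comm]; exact a2
    have n1 : (i, j) ∉ Ω₁ := n0 _ _ (by simp) (by simp)
    have n2 : (i + 1, j) ∉ Ω₁ := n0 _ _ (by simp) (by simp)
    have n3 : (i - 1, j) ∉ Ω₁ := n0 _ _ (by simp) (by simp)
    have n4 : (i, j + 1) ∉ Ω₁ := n0 _ _ (by simp) (by simp)
    have n5 : (i, j - 1) ∉ Ω₁ := n0 _ _ (by simp) (by simp)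
    have e1 : h (i, j) = h₂ (i, j) := by
      simp only [hh]; rw [if_neg (by simp [n1, n2]), if_pos (Or.inl hg)]
    have e2 : h (i - 1, j) = h₂ (i - 1, j) := by
      simp only [hh]
      rw [if_neg (by simp [n1, n3]), if_pos (Or.inr (by rwa [sub_add_cancel]))]
    have e3 : v (i, j) = v₂ (i, j) := by
      simp only [hv]; rw [if_neg (by simp [n1, n4]), if_pos (Or.inl hg)]
    have e4 : v (i, j - 1) = v₂ (i, j - 1) := by
      simp only [hv]
      rw [if_neg (by simp [n1, n5]), if_pos (Or.inr (by rwa [sub_add_cancel]))]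
    simp only [e1, e2, e3, e4]


lemma nonempty_XX : XX.Nonempty := by
  set h : ℤ × ℤ → ℝ := fun g => -(√2 * g.1) - round (-(√2 * (g.1 : ℝ))) with hh
  have hb : ∀ g, |h g| ≤ 1 / 2 := fun g => abs_sub_round _
  have hsym : ∀ g : ℤ × ℤ, ∃ a : Fin 4, ((a : ℕ) : ℝ) - √2 =
      h (g.1, g.2) - h (g.1 - 1, g.2) + ((0 : ℝ) - 0) := by
    intro g
    refine exists_symbol (round (-(√2 * ((g.1 - 1 : ℤ) : ℝ))) - round (-(√2 * (g.1 : ℝ)))) ?_ ?_
    · simp only [hh]
      push_cast
      ring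
    · have a1 := abs_le.1 (hb (g.1, g.2))
      have a2 := abs_le.1 (hb (g.1 - 1, g.2))
      rw [abs_le]
      constructor <;> linarith [a1.1, a1.2, a2.1, a2.2]
  choose x hx using hsym
  exact ⟨x, h, fun _ => 0, hb, fun _ => by norm_num, fun i j => hx (i, j)⟩

/-! ### no periodic points -/

lemma sum_mul_periodic (f : ℕ → ℝ) (p : ℕ) (hf : ∀ n, f (n + p) = f n) (k : ℕ) :
    ∑ i ∈ Finset.range (k * p), f i = k * ∑ i ∈ Finset.range p, f i := by
  have hf' : ∀ k n, f (k * p + n) = f n := by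
    intro k n
    induction k with
    | zero => simp
    | succ k ih => rw [← ih, ← hf (k * p + n)]; congr 1; ring
  induction k with
  | zero => simp
  | succ k ih =>
    rw [Nat.succ_mul, Finset.sum_range_add, ih]
    simp_rw [hf']
    push_cast
    ring

lemma exists_period {A : Type} {x : ℤ × ℤ → A} (hx : IsPeriodic x) (d : ℤ × ℤ) :
    ∃ p : ℕ, 0 < p ∧ ∀ g, x (g + (p : ℤ) • d) = x g := by
  have hni : ¬ Function.Injective (fun n : ℕ => shift ((n : ℤ) • d) x) := by
    intro hinj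
    have h1 : (range fun n : ℕ => shift ((n : ℤ) • d) x).Finite := by
      refine hx.subset ?_
      rintro _ ⟨n, rfl⟩
      exact ⟨(n : ℤ) • d, rfl⟩
    exact (infinite_range_of_injective hinj) h1
  have key : ∀ m n : ℕ, m < n → shift ((m : ℤ) • d) x = shift ((n : ℤ) • d) x →
      ∃ p : ℕ, 0 < p ∧ ∀ g, x (g + (p : ℤ) • d) = x g := by
    intro m n hmn he
    refine ⟨n - m, by omega, fun g => ?_⟩
    have h2 := congrFun he (g - (m : ℤ) • d)
    simp only [shift, sub_add_cancel] at h2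
    rw [h2]
    congr 1
    rw [Nat.cast_sub hmn.le, sub_smul]
    abel
  unfold Function.Injective at hni
  push Not at hni
  obtain ⟨m, n, he, hne⟩ := hni
  rcases lt_or_gt_of_ne hne with h | h
  · exact key m n h he
  · exact key n m h he.symm

theorem not_periodic {x : ℤ × ℤ → Fin 4} (hx : x ∈ XX) : ¬ IsPeriodic x := by
  intro hper
  obtain ⟨h, v, hh, hv, hd⟩ := hx
  obtain ⟨p, hp0, hp⟩ := exists_period hper (1, 0)
  obtain ⟨q, hq0, hq⟩ := exists_period hper (0, 1)
  set f : ℕ → ℕ → ℝ := fun i j => (((x ((i : ℤ), (j : ℤ)) : Fin 4) : ℕ) : ℝ) - √2 with hf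
  have hfp : ∀ i j, f (i + p) j = f i j := by
    intro i j
    have := hp ((i : ℤ), (j : ℤ))
    have e : (((i : ℤ), (j : ℤ)) : ℤ × ℤ) + (p : ℤ) • ((1 : ℤ), (0 : ℤ)) =
        (((i + p : ℕ) : ℤ), (j : ℤ)) := by
      ext
      · simp
      · simp
    rw [e] at this
    simp only [hf, this]
  have hfq : ∀ i j, f i (j + q) = f i j := by
    intro i j
    have := hq ((i : ℤ), (j : ℤ))
    have e : (((i : ℤ), (j : ℤ)) : ℤ × ℤ) + (q : ℤ) • ((0 : ℤ), (1 : ℤ)) =
        ((i : ℤ), ((j + q : ℕ) : ℤ)) := by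
      ext
      · simp
      · simp
    rw [e] at this
    simp only [hf, this]
  set Y : ℕ := ∑ i ∈ Finset.range p, ∑ j ∈ Finset.range q, ((x ((i : ℤ), (j : ℤ)) : Fin 4) : ℕ)
    with hY
  have hbox : ∑ i ∈ Finset.range p, ∑ j ∈ Finset.range q, f i j = Y - √2 * (p * q) := by
    simp only [hf, hY]
    push_cast
    simp only [Finset.sum_sub_distrib, Finset.sum_const, Finset.card_range, nsmul_eq_mul]
    ring
  -- the sum over the large box in two ways
  have hlarge : ∀ k : ℕ, ∑ i ∈ Finset.range (k * p), ∑ j ∈ Finset.range (k * q), f i j =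
      k ^ 2 * (Y - √2 * (p * q)) := by
    intro k
    have h1 : ∀ i, ∑ j ∈ Finset.range (k * q), f i j = k * ∑ j ∈ Finset.range q, f i j :=
      fun i => sum_mul_periodic (f i) q (hfq i) k
    simp_rw [h1]
    rw [← Finset.mul_sum, sum_mul_periodic (fun i => ∑ j ∈ Finset.range q, f i j) p
      (fun i => by simp_rw [hfp]) k, hbox]
    ring
  have htele : ∀ (u : ℤ → ℝ) (m : ℕ), ∑ i ∈ Finset.range m, (u (i : ℤ) - u ((i : ℤ) - 1)) =
      u ((m : ℤ) - 1) - u (-1) := by
    intro u m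
    induction m with
    | zero => simp
    | succ m ih => rw [Finset.sum_range_succ, ih]; push_cast; ring_nf
  have hflow : ∀ m n : ℕ, |∑ i ∈ Finset.range m, ∑ j ∈ Finset.range n, f i j| ≤ m + n := by
    intro m n
    have h1 : ∑ i ∈ Finset.range m, ∑ j ∈ Finset.range n, f i j =
        ∑ j ∈ Finset.range n, (h ((m : ℤ) - 1, (j : ℤ)) - h (-1, (j : ℤ))) +
        ∑ i ∈ Finset.range m, (v ((i : ℤ), (n : ℤ) - 1) - v ((i : ℤ), -1)) := by
      have h2 : ∀ i j : ℕ, f i j = (h ((i : ℤ), (j : ℤ)) - h ((i : ℤ) - 1, (j : ℤ))) +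
          (v ((i : ℤ), (j : ℤ)) - v ((i : ℤ), (j : ℤ) - 1)) := fun i j => hd i j
      simp_rw [h2, Finset.sum_add_distrib]
      congr 1
      · rw [Finset.sum_comm]
        apply Finset.sum_congr rfl
        intro j _
        exact htele (fun i => h (i, (j : ℤ))) m
      · apply Finset.sum_congr rfl
        intro i _
        exact htele (fun j => v ((i : ℤ), j)) n
    rw [h1]
    have h3 : |∑ j ∈ Finset.range n, (h ((m : ℤ) - 1, (j : ℤ)) - h (-1, (j : ℤ)))| ≤ n := by
      refine (Finset.abs_sum_le_sum_abs _ _).trans ?_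
      calc ∑ j ∈ Finset.range n, |h ((m : ℤ) - 1, (j : ℤ)) - h (-1, (j : ℤ))|
          ≤ ∑ _j ∈ Finset.range n, (1 : ℝ) := by
            apply Finset.sum_le_sum
            intro j _
            have a1 := abs_le.1 (hh ((m : ℤ) - 1, (j : ℤ)))
            have a2 := abs_le.1 (hh (-1, (j : ℤ)))
            rw [abs_le]
            constructor <;> linarith [a1.1, a1.2, a2.1, a2.2]
        _ = n := by simp
    have h4 : |∑ i ∈ Finset.range m, (v ((i : ℤ), (n : ℤ) - 1) - v ((i : ℤ), -1))| ≤ m := by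
      refine (Finset.abs_sum_le_sum_abs _ _).trans ?_
      calc ∑ i ∈ Finset.range m, |v ((i : ℤ), (n : ℤ) - 1) - v ((i : ℤ), -1)|
          ≤ ∑ _i ∈ Finset.range m, (1 : ℝ) := by
            apply Finset.sum_le_sum
            intro i _
            have a1 := abs_le.1 (hv ((i : ℤ), (n : ℤ) - 1))
            have a2 := abs_le.1 (hv ((i : ℤ), -1))
            rw [abs_le]
            constructor <;> linarith [a1.1, a1.2, a2.1, a2.2]
        _ = m := by simp
    refine (abs_add_le _ _).trans ?_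
    linarith
  -- conclusion
  have hirr : (Y : ℝ) - √2 * (p * q) ≠ 0 := by
    intro h0
    have hpq : ((p * q : ℕ) : ℝ) ≠ 0 := by
      have : 0 < p * q := Nat.mul_pos hp0 hq0
      exact_mod_cast this.ne'
    have : √2 = ((Y : ℚ) / ((p * q : ℕ) : ℚ) : ℚ) := by
      push_cast at hpq ⊢
      rw [eq_div_iff hpq]
      linarith
    exact irrational_sqrt_two ⟨_, this.symm⟩
  have hpos : 0 < |(Y : ℝ) - √2 * (p * q)| := abs_pos.2 hirr
  obtain ⟨k, hk⟩ := exists_nat_gt (((p : ℝ) + q) / |(Y : ℝ) - √2 * (p * q)|)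
  have hk0 : (0 : ℝ) < k := lt_of_le_of_lt (by positivity) hk
  have hk1 : (p : ℝ) + q < k * |(Y : ℝ) - √2 * (p * q)| := by
    rwa [div_lt_iff₀ hpos] at hk
  have h1 := hflow (k * p) (k * q)
  rw [hlarge, abs_mul, abs_of_nonneg (by positivity)] at h1
  push_cast at h1
  have h2 : (k : ℝ) * (k * |(Y : ℝ) - √2 * (p * q)|) ≤ k * (p + q) := by nlinarith
  have h3 := le_of_mul_le_mul_left h2 hk0
  linarith

/-- There is a nonempty strongly irreducible subshift over `ℤ²` (with four symbols) that has no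
periodic configuration at all. -/
theorem exists_noPeriodic : ∃ X : Set (ℤ × ℤ → Fin 4), IsSubshift X ∧ StronglyIrreducible X ∧ X.Nonempty ∧
    ∀ x ∈ X, ¬ IsPeriodic x :=
  ⟨XX, isSubshift_XX, stronglyIrreducible_XX, nonempty_XX, fun _ hx => not_periodic hx⟩

end Pool.Agent.Lib_MP_b1f496_an
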