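import Pool.Agent.Lib_MP_b1f496_an.Aut

/-!
# Subshifts without dense periodic configurations

If the periodic configurations are not dense in `X`, the automorphism group of
`X × {0,1}^(ℤ²)` is not residually finite.
-/

namespace Pool.Agent.Lib_MP_b1f496_an

open Set Filter Topology Equiv

variable {A : Type} {X C : Set (ℤ × ℤ → A)} {H : Finset (ℤ × ℤ)}

lemma move_union {C₁ C₂ : Set (ℤ × ℤ → A)} {τ : Perm (ℤ × ℤ)} {x : ℤ × ℤ → A}
    (hX : ∀ g, ∀ x ∈ X, shift g x ∈ X) (hC : Sep X (C₁ ∪ C₂) H) (hd : Disjoint C₁ C₂)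
    (hτ : τ ∈ Supp H) (hx : x ∈ X) (s : ℤ × ℤ) :
    move C₂ τ x (move C₁ τ x s) = move (C₁ ∪ C₂) τ x s := by
  have hC₁ : Sep X C₁ H := hC.mono subset_union_left
  have hC₂ : Sep X C₂ H := hC.mono subset_union_right
  by_cases h : ∃ a ∈ H, shift (s - a) x ∈ C₁
  · obtain ⟨a, ha, hs⟩ := h
    rw [move_of_type hX hC₁ hτ hx ha hs, move_of_type hX hC hτ hx ha (Or.inl hs)]
    refine move_of_not hτ ?_
    intro b hb hsb
    have h1 : τ a = b := by
      refine hC _ (hX (s - a) x hx) (Or.inl hs) _ (apply_mem hτ ha) b hb ?_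
      rw [shift_shift]
      have : τ a - b + (s - a) = s - a + τ a - b := by abel
      rw [this]
      exact Or.inr hsb
    rw [h1, add_sub_cancel_right] at hsb
    exact Set.disjoint_left.1 hd hs hsb
  · push Not at h
    rw [move_of_not hτ h]
    by_cases h' : ∃ a ∈ H, shift (s - a) x ∈ C₂
    · obtain ⟨a, ha, hs⟩ := h'
      rw [move_of_type hX hC₂ hτ hx ha hs, move_of_type hX hC hτ hx ha (Or.inr hs)]
    · push Not at h'
      rw [move_of_not hτ h', move_of_not hτ]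
      rintro a ha (hs | hs)
      · exact h a ha hs
      · exact h' a ha hs

variable [TopologicalSpace A]

lemma el_union {C₁ C₂ : Set (ℤ × ℤ → A)} (hX : ∀ g, ∀ x ∈ X, shift g x ∈ X)
    (h1 : IsClopen C₁) (h2 : IsClopen C₂) (h12 : IsClopen (C₁ ∪ C₂)) (hC : Sep X (C₁ ∪ C₂) H)
    (hC₁ : Sep X C₁ H) (hC₂ : Sep X C₂ H) (hd : Disjoint C₁ C₂) (τ : Supp H) :
    el hX h12 hC τ = el hX h1 hC₁ τ * el hX h2 hC₂ τ := by
  refine Subtype.ext (Equiv.ext fun z => Subtype.ext ?_)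
  show act (C₁ ∪ C₂) τ z = act C₁ τ (act C₂ τ z)
  funext u
  simp only [act]
  rw [move_union hX hC hd (inv_mem τ.2) z.2]

lemma el_empty (hX : ∀ g, ∀ x ∈ X, shift g x ∈ X) (hcl : IsClopen C) (hC : Sep X C H)
    (he : ∀ x ∈ X, x ∉ C) (τ : Supp H) : el hX hcl hC τ = 1 := by
  refine Subtype.ext (Equiv.ext fun z => Subtype.ext ?_)
  show act C τ z = z
  funext u
  simp only [act]
  rw [move_of_not (inv_mem τ.2) (fun a _ => he _ (hX _ _ z.2))]

lemma el_mono {K : Finset (ℤ × ℤ)} (hX : ∀ g, ∀ x ∈ X, shift g x ∈ X) (hcl : IsClopen C)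
    (hC : Sep X C H) (hC' : Sep X C K) (τ : Supp H) (τ' : Supp K)
    (h : (τ : Perm (ℤ × ℤ)) = τ') : el hX hcl hC τ = el hX hcl hC' τ' := by
  refine Subtype.ext (Equiv.ext fun z => Subtype.ext ?_)
  show act C τ z = act C τ' z
  rw [h]

lemma el_congr {C' : Set (ℤ × ℤ → A)} (h : C = C') (hX : ∀ g, ∀ x ∈ X, shift g x ∈ X)
    (hcl : IsClopen C) (hC : Sep X C H) (hcl' : IsClopen C') (hC' : Sep X C' H) (τ : Supp H) :
    el hX hcl hC τ = el hX hcl' hC' τ := by
  subst h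
  rfl

/-- a `3`-cycle over a clopen set that is separated along a large set dies in a small quotient -/
lemma kill_small {K : Type} [Group K] [Finite K] {H₀ : Finset (ℤ × ℤ)} {o a b : ℤ × ℤ}
    (hX : ∀ g, ∀ x ∈ X, shift g x ∈ X) (hcl : IsClopen C) (hC : Sep X C H)
    (hC₀ : Sep X C H₀) (hH : H₀ ⊆ H) (φ : Aut (full X) →* K)
    (ho : o ∈ H₀) (ha : a ∈ H₀) (hb : b ∈ H₀) (hao : a ≠ o) (hbo : b ≠ o)
    (hcard : Nat.card K + 1 < H.card) :
    φ (el hX hcl hC₀ (sw H₀ o a ho ha * sw H₀ o b ho hb)) = 1 := by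
  have h1 : el hX hcl hC₀ (sw H₀ o a ho ha * sw H₀ o b ho hb) =
      el hX hcl hC (sw H o a (hH ho) (hH ha) * sw H o b (hH ho) (hH hb)) :=
    el_mono hX hcl hC₀ hC _ _ rfl
  have h2 := quotient_collapse (φ.comp (el hX hcl hC)) (hH ho) (hH ha) (hH hb) hao hbo hcard
  simp only [MonoidHom.comp_apply] at h2
  rw [h1, map_mul, map_mul, h2, ← map_mul, ← map_mul, sw_sq, map_one, map_one]

/-- an infinite orbit contains many different translates -/
lemma exists_large {x : ℤ × ℤ → A} (hx : ¬ IsPeriodic x) (H₀ : Finset (ℤ × ℤ))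
    (h₀ : InjOn (fun a => shift a x) (H₀ : Set (ℤ × ℤ))) (N : ℕ) :
    ∃ H : Finset (ℤ × ℤ), H₀ ⊆ H ∧ N ≤ H.card ∧
      InjOn (fun a => shift a x) (H : Set (ℤ × ℤ)) := by
  classical
  induction N with
  | zero => exact ⟨H₀, subset_rfl, Nat.zero_le _, h₀⟩
  | succ N ih =>
    obtain ⟨H, h1, h2, h3⟩ := ih
    have h4 : ∃ a, shift a x ∉ (H.image fun a => shift a x) := by
      by_contra hcon
      push Not at hcon
      apply hx
      refine (Finset.finite_toSet (H.image fun a => shift a x)).subset ?_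
      rintro _ ⟨a, rfl⟩
      exact hcon a
    obtain ⟨a, ha⟩ := h4
    have haH : a ∉ H := fun h => ha (Finset.mem_image_of_mem _ h)
    refine ⟨insert a H, h1.trans (Finset.subset_insert _ _), ?_, ?_⟩
    · rw [Finset.card_insert_of_notMem haH]
      omega
    · intro b hb c hc hbc
      simp only [Finset.coe_insert, Set.mem_insert_iff, Finset.mem_coe] at hb hc
      rcases hb with rfl | hb <;> rcases hc with rfl | hc
      · rfl
      · exact absurd (Finset.mem_image.2 ⟨c, hc, hbc.symm⟩) ha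
      · exact absurd (Finset.mem_image.2 ⟨b, hb, hbc⟩) ha
      · exact h3 hb hc hbc

variable [DiscreteTopology A]

/-- near a configuration with different translates there is a separated clopen set -/
lemma exists_sep {x : ℤ × ℤ → A} (H : Finset (ℤ × ℤ))
    (hinj : InjOn (fun a => shift a x) (H : Set (ℤ × ℤ))) :
    ∃ E : Set (ℤ × ℤ → A), IsClopen E ∧ x ∈ E ∧ ∀ X : Set (ℤ × ℤ → A), Sep X E H := by
  classical
  have h1 : ∀ p : (ℤ × ℤ) × (ℤ × ℤ), ∃ t : ℤ × ℤ, p.1 ∈ H → p.2 ∈ H → p.1 ≠ p.2 →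
      x (t + (p.1 - p.2)) ≠ x t := by
    intro p
    by_cases hp : p.1 ∈ H ∧ p.2 ∈ H ∧ p.1 ≠ p.2
    · obtain ⟨ha, hb, hne⟩ := hp
      by_contra hcon
      push Not at hcon
      apply hne
      apply hinj ha hb
      show shift p.1 x = shift p.2 x
      funext u
      obtain ⟨-, -, -, h⟩ := hcon (u + p.2)
      have e : u + p.2 + (p.1 - p.2) = u + p.1 := by abel
      rw [e] at h
      exact h
    · exact ⟨0, fun h h' h'' => absurd ⟨h, h', h''⟩ hp⟩
  choose t ht using h1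
  let W : Finset (ℤ × ℤ) := (H ×ˢ H).biUnion fun p => {t p, t p + (p.1 - p.2)}
  refine ⟨⋂ w ∈ W, {y | y w = x w}, ?_, ?_, ?_⟩
  · refine isClopen_biInter_finset fun w _ => ?_
    exact (isClopen_discrete {x w}).preimage (continuous_apply w)
  · simp
  · intro X y _ hy a ha b hb hs
    by_contra hne
    have hW1 : t (a, b) ∈ W :=
      Finset.mem_biUnion.2 ⟨(a, b), Finset.mk_mem_product ha hb, by simp⟩
    have hW2 : t (a, b) + (a - b) ∈ W :=
      Finset.mem_biUnion.2 ⟨(a, b), Finset.mk_mem_product ha hb, by simp⟩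
    rw [Set.mem_iInter₂] at hy hs
    have e1 : y (t (a, b) + (a - b)) = x (t (a, b) + (a - b)) := hy _ hW2
    have e2 : y (t (a, b) + (a - b)) = x (t (a, b)) := hs _ hW1
    exact ht (a, b) ha hb hne (e1.symm.trans e2)

/-- If all configurations of `X ∩ D` are aperiodic, the `3`-cycle over `D` dies in every finite
quotient. -/
lemma kill [Finite A] {K : Type} [Group K] [Finite K] {D : Set (ℤ × ℤ → A)}
    {H₀ : Finset (ℤ × ℤ)} {o a b : ℤ × ℤ} (hXc : IsClosed X)
    (hX : ∀ g, ∀ x ∈ X, shift g x ∈ X) (hD : IsClopen D) (hS : Sep X D H₀)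
    (φ : Aut (full X) →* K) (ho : o ∈ H₀) (ha : a ∈ H₀) (hb : b ∈ H₀) (hao : a ≠ o)
    (hbo : b ≠ o) (hper : ∀ x ∈ X, x ∈ D → ¬ IsPeriodic x) :
    φ (el hX hD hS (sw H₀ o a ho ha * sw H₀ o b ho hb)) = 1 := by
  set τ := sw H₀ o a ho ha * sw H₀ o b ho hb with hτ
  -- the property
  let P : Set (ℤ × ℤ → A) → Prop := fun C =>
    ∀ (hcl : IsClopen C) (hC : Sep X C H₀), φ (el hX hcl hC τ) = 1
  have hPempty : ∀ C, (∀ x ∈ X, x ∉ C) → P C := by
    intro C he hcl hC
    rw [el_empty hX hcl hC he, map_one]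
  have hPunion : ∀ C E : Set (ℤ × ℤ → A), IsClopen E → P (C ∩ E) → P (C \ E) → P C := by
    intro C E hE h1 h2 hcl hC
    have c1 : IsClopen (C ∩ E) := hcl.inter hE
    have c2 : IsClopen (C \ E) := hcl.diff hE
    have hu : C = C ∩ E ∪ C \ E := (Set.inter_union_sdiff C E).symm
    have hC' : Sep X (C ∩ E ∪ C \ E) H₀ := hu ▸ hC
    have c3 : IsClopen (C ∩ E ∪ C \ E) := hu ▸ hcl
    have s1 : Sep X (C ∩ E) H₀ := hC.mono Set.inter_subset_left
    have s2 : Sep X (C \ E) H₀ := hC.mono Set.sdiff_subset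
    rw [el_congr hu hX hcl hC c3 hC' τ,
      el_union hX c1 c2 c3 hC' s1 s2 (Set.disjoint_sdiff_inter.symm) τ, map_mul, h1 c1 s1,
      h2 c2 s2, one_mul]
  -- near every point of `X ∩ D`
  have hlocal : ∀ x ∈ X ∩ D, ∃ E : Set (ℤ × ℤ → A), IsClopen E ∧ x ∈ E ∧
      ∀ C, C ⊆ E → C ⊆ D → P C := by
    rintro x ⟨hxX, hxD⟩
    have hinj₀ : InjOn (fun a => shift a x) (H₀ : Set (ℤ × ℤ)) := by
      intro c hc d hd hcd
      have hcd' : shift c x = shift d x := hcd
      refine hS x hxX hxD c hc d hd ?_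
      have e : shift (c - d) x = x := by
        have h1 : shift (-d) (shift c x) = shift (-d) (shift d x) := by rw [hcd']
        rw [shift_shift, shift_shift, neg_add_cancel, shift_zero] at h1
        rwa [sub_eq_neg_add]
      rw [e]
      exact hxD
    obtain ⟨H, hH₀, hcard, hinj⟩ := exists_large (hper x hxX hxD) H₀ hinj₀ (Nat.card K + 2)
    obtain ⟨E, hE, hxE, hsep⟩ := exists_sep H hinj
    refine ⟨E, hE, hxE, fun C hCE hCD hcl hC => ?_⟩
    exact kill_small hX hcl ((hsep X).mono hCE) hC hH₀ φ ho ha hb hao hbo (by omega)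
  -- compactness
  have hcomp : IsCompact (X ∩ D) := (hXc.inter hD.isClosed).isCompact
  obtain ⟨E, hE, hsub, hPE⟩ : ∃ E : Set (ℤ × ℤ → A), IsClopen E ∧ X ∩ D ⊆ E ∧
      ∀ C, IsClopen C → C ⊆ E → C ⊆ D → P C := by
    refine hcomp.induction_on (p := fun s => ∃ E : Set (ℤ × ℤ → A), IsClopen E ∧ s ⊆ E ∧
      ∀ C, IsClopen C → C ⊆ E → C ⊆ D → P C) ?_ ?_ ?_ ?_
    · refine ⟨∅, isClopen_empty, subset_rfl, fun C _ hCE _ => hPempty C fun x _ hxC => ?_⟩
      exact absurd (hCE hxC) (Set.notMem_empty x)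
    · rintro s t hst ⟨E, h1, h2, h3⟩
      exact ⟨E, h1, hst.trans h2, h3⟩
    · rintro s t ⟨E, h1, h2, h3⟩ ⟨E', h1', h2', h3'⟩
      refine ⟨E ∪ E', h1.union h1', Set.union_subset_union h2 h2', fun C hC hCE hCD => ?_⟩
      refine hPunion C E h1 (h3 _ (hC.inter h1) Set.inter_subset_right
        (Set.inter_subset_left.trans hCD)) (h3' _ (hC.diff h1) ?_ (Set.sdiff_subset.trans hCD))
      rintro x ⟨hxC, hxE⟩
      exact (hCE hxC).resolve_left hxE
    · intro x hx
      obtain ⟨E, h1, h2, h3⟩ := hlocal x hx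
      exact ⟨E, mem_nhdsWithin_of_mem_nhds (h1.isOpen.mem_nhds h2), E, h1, subset_rfl,
        fun C _ => h3 C⟩
  refine hPunion D E hE (hPE _ (hD.inter hE) Set.inter_subset_right Set.inter_subset_left)
    (hPempty _ ?_) hD hS
  rintro x hxX ⟨hxD, hxE⟩
  exact hxE (hsub ⟨hxX, hxD⟩)

/-- If the periodic configurations are not dense in `X`, the automorphism group of
`X × {0,1}^(ℤ²)` has an element `g ≠ 1` that every homomorphism to a finite group maps to `1`. -/
theorem not_residuallyFinite [Finite A] (hX : IsSubshift X) (hd : ¬ PeriodicDense X) :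
    ¬ Group.ResiduallyFinite (Aut (full X)) := by
  classical
  intro hrf
  -- a point and a neighbourhood without periodic configurations
  unfold PeriodicDense at hd
  rw [Set.not_subset] at hd
  obtain ⟨x, hxX, hxd⟩ := hd
  rw [mem_closure_iff] at hxd
  push Not at hxd
  obtain ⟨U, hU, hxU, hUe⟩ := hxd
  have hper : ∀ y ∈ X, y ∈ U → ¬ IsPeriodic y := by
    intro y hyX hyU hy
    have : y ∈ U ∩ {x | x ∈ X ∧ IsPeriodic x} := ⟨hyU, hyX, hy⟩
    rw [hUe] at this
    exact this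
  -- three different translates
  obtain ⟨H, hH0, hcard, hinj⟩ := exists_large (hper x hxX hxU) {0} (by simp) 3
  have h0 : (0 : ℤ × ℤ) ∈ H := hH0 (Finset.mem_singleton_self 0)
  have hc1 : 1 < (H.erase 0).card := by
    rw [Finset.card_erase_of_mem h0]
    omega
  obtain ⟨a, ha, b, hb, hab⟩ := Finset.one_lt_card.1 hc1
  have ha1 := Finset.mem_of_mem_erase ha
  have hb1 := Finset.mem_of_mem_erase hb
  have ha0 := Finset.ne_of_mem_erase ha
  have hb0 := Finset.ne_of_mem_erase hb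
  obtain ⟨E, hE, hxE, hsep⟩ := exists_sep H hinj
  obtain ⟨V, hV, hxV, hVU⟩ := compact_exists_isClopen_in_isOpen hU hxU
  have hD : IsClopen (E ∩ V) := hE.inter hV
  have hS : Sep X (E ∩ V) H := (hsep X).mono Set.inter_subset_left
  set g := el hX.2 hD hS (sw H 0 a h0 ha1 * sw H 0 b h0 hb1) with hg
  -- it is not the identity
  have hg1 : g ≠ 1 := by
    intro h1
    let z : ℤ × ℤ → A × Bool := fun u => (x u, decide (u = 0))
    have hz : z ∈ full X := hxX
    have h2 : act (E ∩ V) (swap 0 a * swap 0 b) z = z := by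
      have h3 : ((g : Perm (full X)) ⟨z, hz⟩ : ℤ × ℤ → A × Bool) = z := by
        rw [h1]
        rfl
      exact h3
    set τ : Perm (ℤ × ℤ) := swap 0 a * swap 0 b with hτ
    have hτH : τ ∈ Supp H := mul_mem (swap_mem h0 ha1) (swap_mem h0 hb1)
    have hτ0 : τ 0 = b := by
      rw [hτ, Perm.mul_apply, swap_apply_left, swap_apply_of_ne_of_ne hb0 (Ne.symm hab)]
    have h4 : move (E ∩ V) τ x 0 = b := by
      rw [move_of_type hX.2 hS hτH hxX h0 (by rw [sub_zero, shift_zero]; exact ⟨hxE, hxV⟩),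
        hτ0]
      simp
    have h5 : move (E ∩ V) τ⁻¹ x b = 0 := by
      rw [← h4, move_mul hX.2 hS (inv_mem hτH) hτH hxX, inv_mul_cancel, move_one]
    have h6 := congrArg Prod.snd (congrFun h2 b)
    have h7 : (act (E ∩ V) τ z b).2 = decide (move (E ∩ V) τ⁻¹ x b = 0) := rfl
    rw [h7, h5] at h6
    have h8 : (z b).2 = decide (b = 0) := rfl
    rw [h8] at h6
    simp [hb0] at h6
  obtain ⟨N, hN⟩ := Group.exists_finiteIndexNormalSubgroup_notMem g hg1
  haveI : Finite (Aut (full X) ⧸ N.toSubgroup) := inferInstance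
  apply hN
  have h9 := kill hX.1 hX.2 hD hS (QuotientGroup.mk' N.toSubgroup) h0 ha1 hb1 ha0 hb0
    (fun y hy hyD => hper y hy (hVU hyD.2))
  have h10 : g ∈ N.toSubgroup := (QuotientGroup.eq_one_iff g).1 h9
  exact h10

end Pool.Agent.Lib_MP_b1f496_an
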